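import Mathlib

/-!
# FPT is not determined by the automorphism group

`M = (ℤ; y = x + k (k ∈ ℤ))` has FPT, its expansion `M'` by the congruence modulo `2` does not, and both
are Fraisse structures with the same automorphism group, the group of all translations.
-/

namespace Pool.Agent.Results.MP_970e84_lc.SameGroupDifferentFPT

open FirstOrder FirstOrder.Language Filter

/-! ### Definitions -/

section Defs

variable (L : FirstOrder.Language.{0, 0}) (M : Type) [L.Structure M]

/-- A Fraisse structure: a countably infinite ultrahomogeneous structure in a countable relational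
language. -/
structure IsFraisseStructure : Prop where
  relational : L.IsRelational
  countable_language : Countable (Σ n, L.Relations n)
  countable : Countable M
  infinite : Infinite M
  ultrahomogeneous : L.IsUltrahomogeneous M

/-- the automorphism group, as a subgroup of the symmetric group -/
def AutGroup : Subgroup (Equiv.Perm M) where
  carrier := {g | (∀ (n : ℕ) (f : L.Functions n) (x : Fin n → M),
      g (Structure.funMap f x) = Structure.funMap f (g ∘ x)) ∧
    ∀ (n : ℕ) (R : L.Relations n) (x : Fin n → M),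
      Structure.RelMap R (g ∘ x) ↔ Structure.RelMap R x}
  one_mem' := ⟨fun _ _ _ => rfl, fun _ _ _ => Iff.rfl⟩
  mul_mem' := by
    rintro g h ⟨hg1, hg2⟩ ⟨hh1, hh2⟩
    refine ⟨fun n f x => ?_, fun n R x => ?_⟩
    · rw [Equiv.Perm.mul_apply, hh1, hg1]
      rfl
    · exact (hg2 n R (h ∘ x)).trans (hh2 n R x)
  inv_mem' := by
    rintro g ⟨hg1, hg2⟩
    have e : ∀ (n : ℕ) (x : Fin n → M), ⇑g ∘ (⇑g⁻¹ ∘ x) = x := by
      intro n x
      funext i
      simp
    refine ⟨fun n f x => ?_, fun n R x => ?_⟩
    · apply g.injective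
      rw [hg1, e]
      simp
    · rw [← hg2 n R (⇑g⁻¹ ∘ x), e]

/-- the topology of pointwise convergence (`M` being discrete) on the automorphism group -/
instance : TopologicalSpace (AutGroup L M) :=
  TopologicalSpace.induced (fun g : AutGroup L M => (⇑(g : Equiv.Perm M) : M → M))
    (@Pi.topologicalSpace M (fun _ => M) (fun _ => ⊥))

/-- `S_n(M)`: the complete `n`-types over parameters from `M`, that is the complete sets of formulas
`φ(x̄, m̄)` that are finitely satisfiable in `M`.  A variable `Sum.inl m` stands for the parameter `m`, a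
variable `Sum.inr i` for `x_i`. -/
structure TypeOver (n : ℕ) where
  carrier : Set (L.Formula (M ⊕ Fin n))
  complete : ∀ φ, φ ∈ carrier ∨ φ.not ∈ carrier
  finSat : ∀ s : Finset (L.Formula (M ⊕ Fin n)), ↑s ⊆ carrier →
    ∃ a : Fin n → M, ∀ φ ∈ s, φ.Realize (Sum.elim id a)

/-- the Stone topology, generated by the sets of types containing a given formula -/
instance (n : ℕ) : TopologicalSpace (TypeOver L M n) :=
  TopologicalSpace.generateFrom {U | ∃ φ, U = {p : TypeOver L M n | φ ∈ p.carrier}}

variable {L M}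

theorem TypeOver.ext' {n : ℕ} {p q : TypeOver L M n} (h : ∀ φ, φ ∈ p.carrier ↔ φ ∈ q.carrier) :
    p = q := by
  cases p
  cases q
  congr
  exact Set.ext h

theorem TypeOver.mem_of_imp {n : ℕ} (p : TypeOver L M n) {φ ψ : L.Formula (M ⊕ Fin n)}
    (h : ∀ a : Fin n → M, φ.Realize (Sum.elim id a) → ψ.Realize (Sum.elim id a))
    (hφ : φ ∈ p.carrier) : ψ ∈ p.carrier := by
  classical
  by_contra hcon
  have h1 := (p.complete ψ).resolve_left hcon
  obtain ⟨a, ha⟩ := p.finSat {φ, ψ.not} (by
    intro χ hχ
    simp only [Finset.coe_insert, Finset.coe_singleton, Set.mem_insert_iff,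
      Set.mem_singleton_iff] at hχ
    rcases hχ with rfl | rfl
    · exact hφ
    · exact h1)
  exact (Formula.realize_not.mp (ha ψ.not (by simp))) (h a (ha φ (by simp)))

theorem TypeOver.mem_congr {n : ℕ} (p : TypeOver L M n) {φ ψ : L.Formula (M ⊕ Fin n)}
    (h : ∀ a : Fin n → M, φ.Realize (Sum.elim id a) ↔ ψ.Realize (Sum.elim id a)) :
    φ ∈ p.carrier ↔ ψ ∈ p.carrier :=
  ⟨p.mem_of_imp fun a => (h a).mp, p.mem_of_imp fun a => (h a).mpr⟩

theorem TypeOver.not_mem_not {n : ℕ} (p : TypeOver L M n) (φ : L.Formula (M ⊕ Fin n)) :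
    φ.not ∈ p.carrier ↔ φ ∉ p.carrier := by
  classical
  constructor
  · intro h1 h2
    obtain ⟨a, ha⟩ := p.finSat {φ, φ.not} (by
      intro χ hχ
      simp only [Finset.coe_insert, Finset.coe_singleton, Set.mem_insert_iff,
        Set.mem_singleton_iff] at hχ
      rcases hχ with rfl | rfl
      · exact h2
      · exact h1)
    exact (Formula.realize_not.mp (ha φ.not (by simp))) (ha φ (by simp))
  · exact (p.complete φ).resolve_left

/-- a formula with its parameters moved by `g` -/
def moveParam {n : ℕ} (g : Equiv.Perm M) (φ : L.Formula (M ⊕ Fin n)) : L.Formula (M ⊕ Fin n) :=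
  Formula.relabel (Sum.map g id) φ

omit [L.Structure M] in
theorem realize_moveParam {n : ℕ} (g : Equiv.Perm M) (φ : L.Formula (M ⊕ Fin n)) {N : Type*}
    [L.Structure N] (v : M ⊕ Fin n → N) :
    (moveParam g φ).Realize v ↔ φ.Realize (v ∘ Sum.map g id) :=
  Formula.realize_relabel

/-- an automorphism as an equivalence of structures -/
def autEquiv (g : AutGroup L M) : M ≃[L] M where
  toEquiv := (g : Equiv.Perm M)
  map_fun' := fun {n} f x => g.2.1 n f x
  map_rel' := fun {n} R x => g.2.2 n R x

theorem realize_aut {α : Type} (g : AutGroup L M) (φ : L.Formula α) (v : α → M) :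
    φ.Realize (⇑(g : Equiv.Perm M) ∘ v) ↔ φ.Realize v :=
  StrongHomClass.realize_formula (autEquiv g) φ

/-- The action `g · p = {φ(x̄, g b̄) : φ(x̄, b̄) ∈ p}`: a formula belongs to `g · p` iff the formula with
parameters moved back by `g⁻¹` belongs to `p`. -/
def act {n : ℕ} (g : AutGroup L M) (p : TypeOver L M n) : TypeOver L M n where
  carrier := {φ | moveParam (g : Equiv.Perm M)⁻¹ φ ∈ p.carrier}
  complete := fun φ => p.complete _
  finSat := by
    classical
    intro s hs
    obtain ⟨a, ha⟩ := p.finSat (s.image (moveParam (g : Equiv.Perm M)⁻¹)) (by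
      intro χ hχ
      simp only [Finset.coe_image, Set.mem_image, Finset.mem_coe] at hχ
      obtain ⟨φ, hφ, rfl⟩ := hχ
      exact hs hφ)
    refine ⟨⇑(g : Equiv.Perm M) ∘ a, fun φ hφ => ?_⟩
    have h1 := ha _ (Finset.mem_image_of_mem _ hφ)
    rw [realize_moveParam] at h1
    rw [← realize_aut g] at h1
    have h2 : ⇑(g : Equiv.Perm M) ∘ ((Sum.elim id a : M ⊕ Fin n → M) ∘
        Sum.map (⇑(g : Equiv.Perm M)⁻¹) id) = Sum.elim id (⇑(g : Equiv.Perm M) ∘ a) := by
      funext z
      rcases z with z | z
      · simp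
      · simp
    rw [h2] at h1
    exact h1

theorem mem_act {n : ℕ} (g : AutGroup L M) (p : TypeOver L M n) (φ : L.Formula (M ⊕ Fin n)) :
    φ ∈ (act g p).carrier ↔ moveParam (g : Equiv.Perm M)⁻¹ φ ∈ p.carrier := Iff.rfl

variable (L M)

/-- a subflow of `S_n(M)`: a nonempty closed invariant subset -/
def IsSubflow {n : ℕ} (F : Set (TypeOver L M n)) : Prop :=
  F.Nonempty ∧ IsClosed F ∧ ∀ (g : AutGroup L M), ∀ p ∈ F, act g p ∈ F

/-- FPT: for all `n ≥ 1` each subflow of `S_n(M)` contains a fixed point -/
def FPT : Prop :=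
  ∀ n : ℕ, 1 ≤ n → ∀ F : Set (TypeOver L M n), IsSubflow L M F →
    ∃ p ∈ F, ∀ g : AutGroup L M, act g p = p

end Defs

/-! ### The structures -/

/-- the relation symbols: `R k` for `y = x + k`, and, if `b = true`, also `E` for congruence
modulo `2` -/
inductive Rl (b : Bool) : ℕ → Type
  | R : ℤ → Rl b 2
  | E : b = true → Rl b 2

/-- the languages -/
def LZ (b : Bool) : FirstOrder.Language.{0, 0} := ⟨fun _ => Empty, Rl b⟩

/-- the structures on `ℤ` -/
instance (b : Bool) : (LZ b).Structure ℤ where
  funMap := fun {_} f _ => Empty.elim f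
  RelMap := fun {_} r x =>
    match r, x with
    | Rl.R k, x => x 1 = x 0 + k
    | Rl.E _, x => (x 0 - x 1) % 2 = 0

/-- the relation symbol for `y = x + k` -/
def rsym (b : Bool) (k : ℤ) : (LZ b).Relations 2 := Rl.R k

/-- translations are automorphisms -/
def transl (b : Bool) (t : ℤ) : AutGroup (LZ b) ℤ :=
  ⟨Equiv.addRight t, fun _ f => Empty.elim f, by
    intro n R x
    cases R with
    | R k =>
      change x 1 + t = x 0 + t + k ↔ x 1 = x 0 + k
      constructor <;> intro h <;> omega
    | E hb =>
      change (x 0 + t - (x 1 + t)) % 2 = 0 ↔ (x 0 - x 1) % 2 = 0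
      rw [add_sub_add_right_eq_sub]⟩

theorem aut_eq_transl (b : Bool) (g : AutGroup (LZ b) ℤ) :
    g = transl b ((g : Equiv.Perm ℤ) 0) := by
  apply Subtype.ext
  apply Equiv.ext
  intro m
  have h := (g.2.2 2 (rsym b m) ![0, m]).mpr (by
    change m = 0 + m
    omega)
  change (g : Equiv.Perm ℤ) m = (g : Equiv.Perm ℤ) 0 + m at h
  change (g : Equiv.Perm ℤ) m = m + (g : Equiv.Perm ℤ) 0
  omega

theorem autGroup_eq (b c : Bool) : AutGroup (LZ b) ℤ = AutGroup (LZ c) ℤ := by
  have key : ∀ b c : Bool, AutGroup (LZ b) ℤ ≤ AutGroup (LZ c) ℤ := by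
    intro b c g hg
    have h := congrArg Subtype.val (aut_eq_transl b ⟨g, hg⟩)
    change g = Equiv.addRight (g 0) at h
    rw [h]
    exact (transl c (g 0)).2
  exact le_antisymm (key b c) (key c b)

theorem isFraisse (b : Bool) : IsFraisseStructure (LZ b) ℤ where
  relational := fun n => by
    change IsEmpty Empty
    infer_instance
  countable_language := by
    have : ∀ n, Countable ((LZ b).Relations n) := by
      intro n
      refine Function.Injective.countable (f := fun x : (LZ b).Relations n => match x with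
        | Rl.R k => some k
        | Rl.E _ => none) ?_
      intro x y hxy
      cases x <;> cases y
      · simp only [Option.some.injEq] at hxy
        rw [hxy]
      · simp at hxy
      · simp at hxy
      · rfl
    infer_instance
  countable := inferInstance
  infinite := inferInstance
  ultrahomogeneous := by
    intro S _ f
    by_cases hS : Nonempty S
    · obtain ⟨s0⟩ := hS
      refine ⟨autEquiv (transl b (f s0 - s0)), ?_⟩
      ext s
      change f s = (s : ℤ) + (f s0 - s0)
      have h1 : Structure.RelMap (rsym b ((s : ℤ) - s0)) ![s0, s] := by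
        change ((s : ℤ)) = (s0 : ℤ) + ((s : ℤ) - s0)
        omega
      have h2 := (f.map_rel (rsym b ((s : ℤ) - s0)) ![s0, s]).mpr h1
      change f s = f s0 + ((s : ℤ) - s0) at h2
      omega
    · refine ⟨autEquiv (transl b 0), ?_⟩
      ext s
      exact absurd ⟨s⟩ hS

/-! ### The structure with the congruence has no fixed type -/

theorem not_fpt : ¬ FPT (LZ true) ℤ := by
  classical
  intro h
  -- the type of `0`
  let p0 : TypeOver (LZ true) ℤ 1 :=
    { carrier := {φ | φ.Realize (Sum.elim id fun _ => 0)}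
      complete := fun φ => by
        by_cases h : φ.Realize (Sum.elim id fun _ => (0 : ℤ))
        · exact Or.inl h
        · exact Or.inr (Formula.realize_not.mpr h)
      finSat := fun s hs => ⟨fun _ => 0, fun φ hφ => hs hφ⟩ }
  obtain ⟨p, -, hp⟩ := h 1 le_rfl Set.univ
    ⟨⟨p0, trivial⟩, isClosed_univ, fun _ _ _ => trivial⟩
  -- the formulas saying that `x` is congruent to `m`
  let E : ℤ → (LZ true).Formula (ℤ ⊕ Fin 1) := fun m =>
    Relations.formula₂ (L := LZ true) (Rl.E rfl) (Term.var (Sum.inr 0)) (Term.var (Sum.inl m))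
  have hE : ∀ (m : ℤ) (v : ℤ ⊕ Fin 1 → ℤ),
      (E m).Realize v ↔ (v (Sum.inr 0) - v (Sum.inl m)) % 2 = 0 := by
    intro m v
    exact Formula.realize_rel₂
  have h1 : E 1 ∈ p.carrier ↔ E 0 ∈ p.carrier := by
    have h2 := hp (transl true 1)
    have h3 : E 1 ∈ (act (transl true 1) p).carrier ↔ E 0 ∈ p.carrier := by
      rw [mem_act]
      apply p.mem_congr
      intro a
      rw [realize_moveParam, hE, hE]
      change (a 0 - ((transl true 1 : Equiv.Perm ℤ)⁻¹ 1)) % 2 = 0 ↔ (a 0 - 0) % 2 = 0
      have h4 : (transl true 1 : Equiv.Perm ℤ)⁻¹ 1 = 0 := by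
        rw [Equiv.Perm.inv_eq_iff_eq]
        rfl
      rw [h4]
    rw [h2] at h3
    exact h3
  rcases p.complete (E 0) with h0 | h0
  · obtain ⟨a, ha⟩ := p.finSat {E 0, E 1} (by
      intro χ hχ
      simp only [Finset.coe_insert, Finset.coe_singleton, Set.mem_insert_iff,
        Set.mem_singleton_iff] at hχ
      rcases hχ with rfl | rfl
      · exact h0
      · exact h1.mpr h0)
    have e0 := (hE 0 _).mp (ha (E 0) (by simp))
    have e1 := (hE 1 _).mp (ha (E 1) (by simp))
    simp only [Sum.elim_inr, Sum.elim_inl, id] at e0 e1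
    omega
  · have h01 : (E 1).not ∈ p.carrier := by
      rw [TypeOver.not_mem_not] at h0 ⊢
      exact fun h => h0 (h1.mp h)
    obtain ⟨a, ha⟩ := p.finSat {(E 0).not, (E 1).not} (by
      intro χ hχ
      simp only [Finset.coe_insert, Finset.coe_singleton, Set.mem_insert_iff,
        Set.mem_singleton_iff] at hχ
      rcases hχ with rfl | rfl
      · exact h0
      · exact h01)
    have e0 := (hE 0 _).not.mp (Formula.realize_not.mp (ha (E 0).not (by simp)))
    have e1 := (hE 1 _).not.mp (Formula.realize_not.mp (ha (E 1).not (by simp)))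
    simp only [Sum.elim_inr, Sum.elim_inl, id] at e0 e1
    omega

/-! ### The structure without the congruence has FPT -/

/-- every complete type is realized in some structure, together with its parameters -/
theorem exists_realization {n : ℕ} (p : TypeOver (LZ false) ℤ n) :
    ∃ (N : Type) (_ : (LZ false).Structure N) (v : ℤ ⊕ Fin n → N),
      ∀ φ, φ ∈ p.carrier ↔ φ.Realize v := by
  classical
  let T : (LZ false)[[ℤ ⊕ Fin n]].Theory := Formula.equivSentence '' p.carrier
  have hT : T.IsSatisfiable := by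
    rw [Theory.isSatisfiable_iff_isFinitelySatisfiable]
    intro T0 hT0
    obtain ⟨a, ha⟩ := p.finSat (T0.image Formula.equivSentence.symm) (by
      intro χ hχ
      simp only [Finset.coe_image, Set.mem_image, Finset.mem_coe] at hχ
      obtain ⟨σ, hσ, rfl⟩ := hχ
      obtain ⟨φ, hφ, rfl⟩ := hT0 hσ
      rw [Equiv.symm_apply_apply]
      exact hφ)
    let _i := constantsOn.structure (Sum.elim id a : ℤ ⊕ Fin n → ℤ)
    have hmod : ℤ ⊨ (T0 : (LZ false)[[ℤ ⊕ Fin n]].Theory) := by
      rw [Theory.model_iff]
      intro σ hσ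
      have h1 := ha _ (Finset.mem_image_of_mem _ hσ)
      rw [Formula.realize_equivSentence_symm] at h1
      exact h1
    exact Theory.Model.isSatisfiable ℤ
  obtain ⟨N⟩ := hT
  let SN : (LZ false).Structure N := ((LZ false).lhomWithConstants (ℤ ⊕ Fin n)).reduct N
  have hexp : ((LZ false).lhomWithConstants (ℤ ⊕ Fin n)).IsExpansionOn N :=
    LHom.isExpansionOn_reduct _ _
  have hreal : ∀ φ ∈ p.carrier, φ.Realize fun a => ((LZ false).con a : N) := by
    intro φ hφ
    rw [← Formula.realize_equivSentence N φ]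
    exact Theory.realize_sentence_of_mem T (Set.mem_image_of_mem _ hφ)
  refine ⟨N, SN, fun a => ((LZ false).con a : N), fun φ => ⟨hreal φ, fun h => ?_⟩⟩
  rcases p.complete φ with h1 | h1
  · exact h1
  · exact absurd h (Formula.realize_not.mp (hreal _ h1))

/-- the formula `x_i = m` -/
def eqF {n : ℕ} (i : Fin n) (m : ℤ) : (LZ false).Formula (ℤ ⊕ Fin n) :=
  Term.equal (Term.var (Sum.inr i)) (Term.var (Sum.inl m))

theorem realize_eqF {n : ℕ} (i : Fin n) (m : ℤ) {N : Type} [(LZ false).Structure N]
    (v : ℤ ⊕ Fin n → N) : (eqF i m).Realize v ↔ v (Sum.inr i) = v (Sum.inl m) :=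
  Formula.realize_equal

/-- the formula `m = m'` -/
def eqC {n : ℕ} (m m' : ℤ) : (LZ false).Formula (ℤ ⊕ Fin n) :=
  Term.equal (Term.var (Sum.inl m)) (Term.var (Sum.inl m'))

/-- the formula `R_k(m, m')` -/
def relC {n : ℕ} (k m m' : ℤ) : (LZ false).Formula (ℤ ⊕ Fin n) :=
  Relations.formula₂ (rsym false k) (Term.var (Sum.inl m)) (Term.var (Sum.inl m'))

/-- the formula `∀ y, R_k(m, y) → y = m'` -/
def succF {n : ℕ} (k m m' : ℤ) : (LZ false).Formula (ℤ ⊕ Fin n) :=
  BoundedFormula.all ((Relations.boundedFormula₂ (rsym false k)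
    (Term.var (Sum.inl (Sum.inl m))) (Term.var (Sum.inr (0 : Fin 1)))).imp
    (Term.bdEqual (Term.var (Sum.inr (0 : Fin 1))) (Term.var (Sum.inl (Sum.inl m')))))

/-- the formula `∀ y, R_k(y, m) → y = m'` -/
def predF {n : ℕ} (k m m' : ℤ) : (LZ false).Formula (ℤ ⊕ Fin n) :=
  BoundedFormula.all ((Relations.boundedFormula₂ (rsym false k)
    (Term.var (Sum.inr (0 : Fin 1))) (Term.var (Sum.inl (Sum.inl m)))).imp
    (Term.bdEqual (Term.var (Sum.inr (0 : Fin 1))) (Term.var (Sum.inl (Sum.inl m')))))

section Realize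

variable {n : ℕ} {N : Type} [(LZ false).Structure N]

/-- the relation `R_k` in `N` -/
def RN (k : ℤ) (x y : N) : Prop := Structure.RelMap (rsym false k) ![x, y]

theorem realize_eqC (m m' : ℤ) (v : ℤ ⊕ Fin n → N) :
    (eqC m m' : (LZ false).Formula (ℤ ⊕ Fin n)).Realize v ↔ v (Sum.inl m) = v (Sum.inl m') :=
  Formula.realize_equal

theorem realize_relC (k m m' : ℤ) (v : ℤ ⊕ Fin n → N) :
    (relC k m m' : (LZ false).Formula (ℤ ⊕ Fin n)).Realize v ↔
      RN k (v (Sum.inl m)) (v (Sum.inl m')) :=
  Formula.realize_rel₂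

theorem realize_succF (k m m' : ℤ) (v : ℤ ⊕ Fin n → N) :
    (succF k m m' : (LZ false).Formula (ℤ ⊕ Fin n)).Realize v ↔
      ∀ y, RN k (v (Sum.inl m)) y → y = v (Sum.inl m') := by
  unfold succF Formula.Realize
  rw [BoundedFormula.realize_all]
  refine forall_congr' fun y => ?_
  rw [BoundedFormula.realize_imp, BoundedFormula.realize_rel₂, BoundedFormula.realize_bdEqual]
  rfl

theorem realize_predF (k m m' : ℤ) (v : ℤ ⊕ Fin n → N) :
    (predF k m m' : (LZ false).Formula (ℤ ⊕ Fin n)).Realize v ↔
      ∀ y, RN k y (v (Sum.inl m)) → y = v (Sum.inl m') := by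
  unfold predF Formula.Realize
  rw [BoundedFormula.realize_all]
  refine forall_congr' fun y => ?_
  rw [BoundedFormula.realize_imp, BoundedFormula.realize_rel₂, BoundedFormula.realize_bdEqual]
  rfl

end Realize

theorem RN_int (k x y : ℤ) : RN (N := ℤ) k x y ↔ y = x + k := Iff.rfl

/-- a type none of whose variables is equal to a parameter is fixed -/
theorem fixed_of_unrealized {n : ℕ} (q : TypeOver (LZ false) ℤ n)
    (hq : ∀ i m, eqF i m ∉ q.carrier) (g : AutGroup (LZ false) ℤ) : act g q = q := by
  classical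
  obtain ⟨N, SN, v, hv⟩ := exists_realization q
  -- transfer of sentences about parameters
  have tr : ∀ φ : (LZ false).Formula (ℤ ⊕ Fin n),
      (∀ a : Fin n → ℤ, φ.Realize (Sum.elim id a)) → φ.Realize v := by
    intro φ h
    rw [← hv]
    rcases q.complete φ with h1 | h1
    · exact h1
    · exact q.mem_of_imp (fun a _ => h a) h1
  have tr2 : ∀ φ : (LZ false).Formula (ℤ ⊕ Fin n),
      (∀ a : Fin n → ℤ, ¬ φ.Realize (Sum.elim id a)) → ¬ φ.Realize v := by
    intro φ h
    have := tr φ.not fun a => Formula.realize_not.mpr (h a)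
    exact Formula.realize_not.mp this
  let j : ℤ → N := fun m => v (Sum.inl m)
  have hjinj : Function.Injective j := by
    intro m m' hmm
    by_contra hne
    refine tr2 (eqC m m') (fun a => ?_) ((realize_eqC m m' v).mpr hmm)
    rw [realize_eqC]
    exact hne
  have hrel : ∀ k m m', RN k (j m) (j m') ↔ m' = m + k := by
    intro k m m'
    constructor
    · intro h
      by_contra hne
      refine tr2 (relC k m m') (fun a => ?_) ((realize_relC k m m' v).mpr h)
      rw [realize_relC]
      exact hne
    · intro h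
      refine (realize_relC k m m' v).mp (tr (relC k m m') fun a => ?_)
      rw [realize_relC]
      exact h
  have hsucc : ∀ k m y, RN k (j m) y → y = j (m + k) := by
    intro k m
    refine (realize_succF k m (m + k) v).mp (tr (succF k m (m + k)) fun a => ?_)
    rw [realize_succF]
    intro y hy
    exact hy
  have hpred : ∀ k m y, RN k y (j m) → y = j (m - k) := by
    intro k m
    refine (realize_predF k m (m - k) v).mp (tr (predF k m (m - k)) fun a => ?_)
    rw [realize_predF]
    intro y hy
    change m = y + k at hy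
    change y = m - k
    omega
  have hc : ∀ i, v (Sum.inr i) ∉ Set.range j := by
    rintro i ⟨m, hm⟩
    apply hq i m
    rw [hv, realize_eqF]
    exact hm.symm
  -- the automorphism of `N`
  let J : ℤ ↪ N := ⟨j, hjinj⟩
  let h : Equiv.Perm N := (g : Equiv.Perm ℤ).viaEmbedding J
  have h1 : ∀ m, h (j m) = j ((g : Equiv.Perm ℤ) m) := fun m =>
    Equiv.Perm.viaEmbedding_apply _ J m
  have h2 : ∀ y, y ∉ Set.range j → h y = y := fun y hy =>
    Equiv.Perm.viaEmbedding_apply_of_notMem _ J y hy
  have hg : ∀ k m m', (g : Equiv.Perm ℤ) m' = (g : Equiv.Perm ℤ) m + k ↔ m' = m + k := fun k m m' =>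
    g.2.2 2 (rsym false k) ![m, m']
  have hN : ∀ k x y, RN k (h x) (h y) ↔ RN k x y := by
    intro k x y
    by_cases hx : x ∈ Set.range j
    · obtain ⟨m, rfl⟩ := hx
      by_cases hy : y ∈ Set.range j
      · obtain ⟨m', rfl⟩ := hy
        rw [h1, h1, hrel, hrel, hg]
      · rw [h1, h2 y hy]
        constructor
        · intro h3
          exact absurd ⟨_, (hsucc _ _ _ h3).symm⟩ hy
        · intro h3
          exact absurd ⟨_, (hsucc _ _ _ h3).symm⟩ hy
    · by_cases hy : y ∈ Set.range j
      · obtain ⟨m', rfl⟩ := hy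
        rw [h1, h2 x hx]
        constructor
        · intro h3
          exact absurd ⟨_, (hpred _ _ _ h3).symm⟩ hx
        · intro h3
          exact absurd ⟨_, (hpred _ _ _ h3).symm⟩ hx
      · rw [h2 x hx, h2 y hy]
  let hh : N ≃[LZ false] N :=
    { toEquiv := h
      map_fun' := fun {_} f _ => Empty.elim f
      map_rel' := by
        intro n R x
        cases R with
        | R k =>
          have e1 : (⇑h ∘ x) = ![h (x 0), h (x 1)] := by
            funext i
            fin_cases i <;> rfl
          have e2 : x = ![x 0, x 1] := by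
            funext i
            fin_cases i <;> rfl
          change Structure.RelMap (rsym false k) (⇑h ∘ x) ↔ Structure.RelMap (rsym false k) x
          rw [e1]
          refine (hN k (x 0) (x 1)).trans ?_
          unfold RN
          rw [← e2]
        | E hb => cases hb }
  apply TypeOver.ext'
  intro φ
  rw [mem_act, hv, hv, realize_moveParam]
  have hginv : ∀ z, (g : Equiv.Perm ℤ) ((g : Equiv.Perm ℤ)⁻¹ z) = z := fun z => by simp
  have e3 : v ∘ Sum.map (⇑(g : Equiv.Perm ℤ)⁻¹) id = fun z => h.symm (v z) := by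
    funext z
    rcases z with z | z
    · change v (Sum.inl ((g : Equiv.Perm ℤ)⁻¹ z)) = h.symm (v (Sum.inl z))
      rw [Equiv.eq_symm_apply]
      have := h1 ((g : Equiv.Perm ℤ)⁻¹ z)
      rw [hginv] at this
      exact this
    · change v (Sum.inr z) = h.symm (v (Sum.inr z))
      rw [Equiv.eq_symm_apply]
      exact h2 _ (hc z)
  rw [e3]
  exact StrongHomClass.realize_formula hh.symm φ

theorem fpt : FPT (LZ false) ℤ := by
  classical
  intro n _ F hF
  obtain ⟨⟨p, hp⟩, hclosed, hinv⟩ := hF
  let U : Ultrafilter ℕ := hyperfilter ℕ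
  let q : TypeOver (LZ false) ℤ n :=
    { carrier := {φ | ∀ᶠ t : ℕ in (U : Filter ℕ), φ ∈ (act (transl false t) p).carrier}
      complete := by
        intro φ
        change (∀ᶠ t : ℕ in (U : Filter ℕ), φ ∈ (act (transl false t) p).carrier) ∨
          ∀ᶠ t : ℕ in (U : Filter ℕ), φ.not ∈ (act (transl false t) p).carrier
        rw [← Ultrafilter.eventually_or]
        exact Eventually.of_forall fun t => (act (transl false t) p).complete φ
      finSat := by
        intro s hs
        have h1 : ∀ᶠ t : ℕ in (U : Filter ℕ), ∀ φ ∈ s, φ ∈ (act (transl false t) p).carrier :=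
          (Filter.eventually_all_finset s).mpr fun φ hφ => hs hφ
        obtain ⟨t, ht⟩ := h1.exists
        exact (act (transl false t) p).finSat s fun φ hφ => ht φ hφ }
  have hlim : Tendsto (fun t : ℕ => act (transl false t) p) (U : Filter ℕ) (nhds q) := by
    rw [TopologicalSpace.tendsto_nhds_generateFrom_iff]
    rintro _ ⟨φ, rfl⟩ hφ
    exact hφ
  have hqF : q ∈ F := hclosed.mem_of_tendsto hlim (Eventually.of_forall fun t => hinv _ p hp)
  refine ⟨q, hqF, fixed_of_unrealized q ?_⟩
  intro i m hm
  -- the formula `x_i = m` belongs to at most one translate of `p`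
  have h1 : ∀ t : ℕ, eqF i m ∈ (act (transl false t) p).carrier ↔
      eqF i (m - t) ∈ p.carrier := by
    intro t
    rw [mem_act]
    apply p.mem_congr
    intro a
    rw [realize_moveParam, realize_eqF, realize_eqF]
    change a i = (transl false t : Equiv.Perm ℤ)⁻¹ m ↔ a i = m - t
    have h4 : (transl false t : Equiv.Perm ℤ)⁻¹ m = m - t := by
      rw [Equiv.Perm.inv_eq_iff_eq]
      change m = m - t + t
      omega
    rw [h4]
  have hm' : ∀ᶠ t : ℕ in (U : Filter ℕ), eqF i m ∈ (act (transl false t) p).carrier := hm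
  obtain ⟨t, ht⟩ := hm'.exists
  have h2 : ∀ᶠ s : ℕ in (U : Filter ℕ), t < s :=
    Filter.Eventually.filter_mono Nat.hyperfilter_le_atTop (eventually_gt_atTop t)
  obtain ⟨s, hs1, hs2⟩ := (hm'.and h2).exists
  rw [h1] at ht hs1
  obtain ⟨a, ha⟩ := p.finSat {eqF i (m - t), eqF i (m - s)} (by
    intro χ hχ
    simp only [Finset.coe_insert, Finset.coe_singleton, Set.mem_insert_iff,
      Set.mem_singleton_iff] at hχ
    rcases hχ with rfl | rfl
    · exact ht
    · exact hs1)
  have e0 := (realize_eqF _ _ _).mp (ha (eqF i (m - t)) (by simp))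
  have e1 := (realize_eqF _ _ _).mp (ha (eqF i (m - s)) (by simp))
  simp only [Sum.elim_inr, Sum.elim_inl, id] at e0 e1
  omega

/-- There are Fraisse structures `M`, `M'` whose automorphism groups are isomorphic as topological
groups, such that `M` has FPT and `M'` does not have FPT.  So the answer to Q1 is yes. -/
theorem result :
    ∃ (L L' : FirstOrder.Language.{0, 0}) (M M' : Type) (_ : L.Structure M)
      (_ : L'.Structure M'), IsFraisseStructure L M ∧ IsFraisseStructure L' M' ∧
      (∃ e : AutGroup L M ≃* AutGroup L' M', Continuous e ∧ Continuous e.symm) ∧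
      FPT L M ∧ ¬ FPT L' M' := by
  refine ⟨LZ false, LZ true, ℤ, ℤ, inferInstance, inferInstance, isFraisse false, isFraisse true,
    ⟨MulEquiv.subgroupCongr (autGroup_eq false true), ?_, ?_⟩, fpt, not_fpt⟩
  · rw [continuous_induced_rng]
    exact continuous_induced_dom
  · rw [continuous_induced_rng]
    exact continuous_induced_dom

end Pool.Agent.Results.MP_970e84_lc.SameGroupDifferentFPT
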